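import Mathlib
import Pool.Agent.W_MP_448cb3_co.Defs
import Pool.Agent.W_MP_448cb3_co.Covers

set_option autoImplicit false

/-!
Local structure of Gaussian posets: every element has at most two lower and at most two upper
covers, and the number of elements of each level with two covers is determined by the sizes of
the levels.
-/

namespace Pool.Agent.Results.MP_448cb3_co.AtMostTwoCovers

open Pool.Agent.W_MP_448cb3_co

theorem result (P : Type) [PartialOrder P] [Fintype P] (hP : IsGaussian P) :
    ∃ c : P → ℕ, (∀ x : P, c x = 0 ↔ IsMax x) ∧ (∀ x y : P, x ⋖ y → c x = c y + 1) ∧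
      (∀ x : P, {y : P | y ⋖ x}.ncard ≤ 2 ∧ {y : P | x ⋖ y}.ncard ≤ 2) ∧
      ∀ j : ℕ, {x : P | c x + 1 = j ∧ {y : P | y ⋖ x}.ncard = 2}.ncard + {x : P | IsMax x}.ncard =
          {x : P | c x = j}.ncard + {x : P | c x < j ∧ IsMin x}.ncard ∧
        {x : P | c x = j + 1 ∧ {y : P | x ⋖ y}.ncard = 2}.ncard + {x : P | IsMax x}.ncard =
          {x : P | c x = j}.ncard + {x : P | c x < j ∧ IsMin x}.ncard :=
  covers P hP

end Pool.Agent.Results.MP_448cb3_co.AtMostTwoCovers
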