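import Pool.Agent.W_448zz_h61.Main

/-!
Every connected finite Gaussian poset is a distributive lattice.

The identity that defines a Gaussian poset says, for every energy `n`, that the generating function
of the order preserving maps, written as a sum over configurations which differ from a ground state
in finitely many places, is divisible by a power of `1 + X` given by the number of the sites of a
level.  The proof reads these divisibilities level by level (windows), shows by induction that every
component of the poset above a level looks like a piece of one of the known posets (rectangles,
stairs, the posets of the types E6 and E7, and so on), that two components are never joined, and
that no defect of the covering relations is possible.  A poset with all joins (or all meets) among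
the Gaussian ones is then a distributive lattice.
-/

namespace Pool.Agent.Results.MP_448cb3_co.ConnectedGaussian

open Pool.Agent.GaussPoset

universe u

/-- Every connected finite Gaussian poset is a distributive lattice. -/
theorem result (P : Type u) [Fintype P] [PartialOrder P] (hG : IsGaussian P)
    (hc : (SimpleGraph.hasse P).Connected) : IsDistribLatticeOrder P := by
  classical
  exact EK.distrib hG hc

end Pool.Agent.Results.MP_448cb3_co.ConnectedGaussian
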